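import Pool.Agent.Y920.AD.Stm

/-!
# Splitting the horizontal coordinates into pairs
-/

set_option autoImplicit false

namespace Pool.Agent.Y177.AD

open Pool.Agent.H983R3 Pool.Agent.Y920.AD

/-- the dimensions of the factors -/
def ee (d : ℕ) (i : Fin (d / 2)) : ℕ := if 2 * (i : ℕ) + 1 < d - 1 then 3 else 2

theorem ee_lt {d : ℕ} (hd : 2 ≤ d) (i : Fin (d / 2)) (c : Fin (ee d i - 1)) :
    2 * (i : ℕ) + (c : ℕ) < d - 1 := by
  have hi := i.2
  have hc := c.2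
  unfold ee at hc
  split_ifs at hc <;> omega

theorem ee_le {d : ℕ} (i : Fin (d / 2)) (c : Fin (ee d i - 1)) : (c : ℕ) < 2 := by
  have hc := c.2
  unfold ee at hc
  split_ifs at hc <;> omega

/-- the coordinates -/
def io {d : ℕ} (hd : 2 ≤ d) (s : Σ i : Fin (d / 2), Fin (ee d i - 1)) : Fin (d - 1) :=
  ⟨2 * (s.1 : ℕ) + (s.2 : ℕ), ee_lt hd s.1 s.2⟩

theorem io_bij {d : ℕ} (hd : 2 ≤ d) : Function.Bijective (io hd) := by
  constructor
  · rintro ⟨i, c⟩ ⟨i', c'⟩ h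
    have h1 : 2 * (i : ℕ) + (c : ℕ) = 2 * (i' : ℕ) + (c' : ℕ) := congrArg Fin.val h
    have h2 := ee_le i c
    have h3 := ee_le i' c'
    have h4 : i = i' := Fin.ext (by omega)
    subst h4
    have h5 : c = c' := Fin.ext (by omega)
    rw [h5]
  · intro j
    have hj := j.2
    refine ⟨⟨⟨(j : ℕ) / 2, by omega⟩, ⟨(j : ℕ) % 2, ?_⟩⟩, Fin.ext ?_⟩
    · unfold ee
      dsimp only
      split_ifs <;> omega
    · change 2 * ((j : ℕ) / 2) + (j : ℕ) % 2 = j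
      omega

/-- a block of coordinates -/
noncomputable def pr {d : ℕ} (hd : 2 ≤ d) (i : Fin (d / 2)) (v : EuclideanSpace ℝ (Fin (d - 1))) :
    EuclideanSpace ℝ (Fin (ee d i - 1)) := WithLp.toLp 2 fun c => v (io hd ⟨i, c⟩)

theorem pr_sub {d : ℕ} (hd : 2 ≤ d) (i : Fin (d / 2)) (v w : EuclideanSpace ℝ (Fin (d - 1))) :
    pr hd i v - pr hd i w = pr hd i (v - w) := rfl

theorem norm_pr {d : ℕ} (hd : 2 ≤ d) (v : EuclideanSpace ℝ (Fin (d - 1))) :
    ‖v‖ ^ 2 = ∑ i, ‖pr hd i v‖ ^ 2 := by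
  rw [EuclideanSpace.norm_sq_eq, ← (Equiv.ofBijective _ (io_bij hd)).sum_comp, Fintype.sum_sigma]
  refine Finset.sum_congr rfl fun i _ => ?_
  rw [EuclideanSpace.norm_sq_eq]
  rfl

theorem sum_sq_le {ι : Type*} (s : Finset ι) (f : ι → ℝ) (hf : ∀ i, 0 ≤ f i) :
    ∑ i ∈ s, f i ^ 2 ≤ (∑ i ∈ s, f i) ^ 2 := by
  classical
  induction s using Finset.induction_on with
  | empty => simp
  | insert a s ha ih =>
    rw [Finset.sum_insert ha, Finset.sum_insert ha]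
    have h1 := hf a
    have h2 : 0 ≤ ∑ i ∈ s, f i := Finset.sum_nonneg fun i _ => hf i
    nlinarith [mul_nonneg h1 h2]

theorem t_BLK : S_BLK := by
  intro d hd
  refine ⟨ee d, fun i p => ⟨pr hd i p.x, p.h, p.pos⟩, ?_, ?_, fun _ _ => rfl, ?_, ?_⟩
  · intro i
    unfold ee
    split_ifs
    · exact Or.inr rfl
    · exact Or.inl rfl
  · have h1 : Fintype.card (Σ i : Fin (d / 2), Fin (ee d i - 1)) = Fintype.card (Fin (d - 1)) :=
      Fintype.card_of_bijective (io_bij hd)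
    rw [Fintype.card_sigma, Fintype.card_fin] at h1
    rw [← h1]
    exact Finset.sum_congr rfl fun i _ => (Fintype.card_fin _).symm
  · intro i p q
    change ‖pr hd i p.x - pr hd i q.x‖ ≤ ‖p.x - q.x‖
    rw [pr_sub]
    rw [← pow_le_pow_iff_left₀ (norm_nonneg _) (norm_nonneg _) two_ne_zero, norm_pr hd (p.x - q.x)]
    exact Finset.single_le_sum (f := fun i => ‖pr hd i (p.x - q.x)‖ ^ 2)
      (fun i _ => sq_nonneg _) (Finset.mem_univ i)
  · intro p q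
    change ‖p.x - q.x‖ ≤ ∑ i, ‖pr hd i p.x - pr hd i q.x‖
    simp only [pr_sub]
    have h0 : 0 ≤ ∑ i, ‖pr hd i (p.x - q.x)‖ := Finset.sum_nonneg fun i _ => norm_nonneg _
    rw [← pow_le_pow_iff_left₀ (norm_nonneg _) h0 two_ne_zero, norm_pr hd (p.x - q.x)]
    exact sum_sq_le _ _ fun i => norm_nonneg _

end Pool.Agent.Y177.AD
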